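import Mathlib
set_option autoImplicit false
open MeasureTheory
open scoped ENNReal

namespace Pool.Agent.Results.MP_97409a_pr.ZeroWait

/-- The ascending rearrangement of a vector. -/
noncomputable def sortAsc {k : ℕ} (v : Fin k → ℝ) : Fin k → ℝ := v ∘ Tuple.sort v

/-- One step of the Kiefer-Wolfowitz recursion for `k` servers (index `0` is the least workload):
the service time `s` is added to the least workload, the interarrival time `t` is subtracted
everywhere, positive parts are taken, and the result is sorted in ascending order. -/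
noncomputable def step {k : ℕ} (w : Fin k → ℝ) (s t : ℝ) : Fin k → ℝ :=
  sortAsc (fun i => max (w i + (if (i : ℕ) = 0 then s else 0) - t) 0)

/-- `μT` and `μS` are the laws of the interarrival time `T ≥ 0` and of the service time `S ≥ 0`
of a GI/GI/k queue of the class `Q₂(eT, eS, eT2, eS2)`. -/
structure InQ2 (eT eS eT2 eS2 : ℝ) (μT μS : Measure ℝ) : Prop where
  probT : IsProbabilityMeasure μT
  probS : IsProbabilityMeasure μS
  nonnegT : ∀ᵐ t ∂μT, 0 ≤ t
  nonnegS : ∀ᵐ s ∂μS, 0 ≤ s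
  sqT : Integrable (fun t : ℝ => t ^ 2) μT
  sqS : Integrable (fun s : ℝ => s ^ 2) μS
  meanT : ∫ t, t ∂μT = eT
  meanS : ∫ s, s ∂μS = eS
  secondT : ∫ t, t ^ 2 ∂μT = eT2
  secondS : ∫ s, s ^ 2 ∂μS = eS2

/-- `π` is a stationary distribution of the workload vector (a probability measure on sorted
nonnegative vectors, invariant under the recursion driven by an independent pair `(S, T)`). -/
structure IsStationary (k : ℕ) (μT μS : Measure ℝ) (π : Measure (Fin k → ℝ)) : Prop where
  prob : IsProbabilityMeasure π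
  sorted : ∀ᵐ w ∂π, Monotone w
  nonneg : ∀ᵐ w ∂π, ∀ i, 0 ≤ w i
  invariant : Measure.map (fun x : (Fin k → ℝ) × (ℝ × ℝ) => step x.1 x.2.1 x.2.2)
    (π.prod (μS.prod μT)) = π

/-- The mean stationary waiting time `E W₁`, in `[0, ∞]`. -/
noncomputable def meanWait {k : ℕ} (hk : 2 ≤ k) (π : Measure (Fin k → ℝ)) : ℝ≥0∞ :=
  ∫⁻ w, ENNReal.ofReal (w ⟨0, by omega⟩) ∂π

/-- The load `ρ = ES / (k ET)`. -/
noncomputable def load (k : ℕ) (eT eS : ℝ) : ℝ := eS / (k * eT)

/-- The coefficient `2 k² ρ (1 - ρ) ET` of `E W₁`. -/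
noncomputable def coeff (k : ℕ) (eT eS : ℝ) : ℝ :=
  2 * (k : ℝ) ^ 2 * load k eT eS * (1 - load k eT eS) * eT

/-- The right side `[1 - k(1-ρ)] [ES² - (2k-1) ES ET + k(k-1) (ET)²]₊`. -/
noncomputable def rhs (k : ℕ) (eT eS eS2 : ℝ) : ℝ :=
  (1 - k * (1 - load k eT eS)) *
    max (eS2 - (2 * k - 1) * eS * eT + k * (k - 1) * eT ^ 2) 0

/-- (a): every system in `Q₂` satisfies the inequality. -/
def PartA (k : ℕ) (hk : 2 ≤ k) (eT eS eT2 eS2 : ℝ) : Prop :=
  ∀ μT μS : Measure ℝ, InQ2 eT eS eT2 eS2 μT μS → ∀ π, IsStationary k μT μS π →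
    ENNReal.ofReal (rhs k eT eS eS2) ≤ ENNReal.ofReal (coeff k eT eS) * meanWait hk π

/-- (b): the bound is tight. -/
def PartB (k : ℕ) (hk : 2 ≤ k) (eT eS eT2 eS2 : ℝ) : Prop :=
  (⨅ (μT : Measure ℝ) (μS : Measure ℝ) (_ : InQ2 eT eS eT2 eS2 μT μS)
    (π : Measure (Fin k → ℝ)) (_ : IsStationary k μT μS π),
      ENNReal.ofReal (coeff k eT eS) * meanWait hk π) = ENNReal.ofReal (rhs k eT eS eS2)

/-- The assertion of Q1: (a) and (b) for every `k ≥ 2` and all moments (of some system)
with `1 - 1/k ≤ ρ < 1`. -/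
def Q1 : Prop :=
  ∀ (k : ℕ) (hk : 2 ≤ k) (eT eS eT2 eS2 : ℝ), 0 < eT →
    (∃ μT μS : Measure ℝ, InQ2 eT eS eT2 eS2 μT μS) →
    1 - 1 / (k : ℝ) ≤ load k eT eS → load k eT eS < 1 →
    PartA k hk eT eS eT2 eS2 ∧ PartB k hk eT eS eT2 eS2

/-- The law of a random variable equal to `b` with probability `q` and to `c` otherwise. -/
noncomputable def twoPoint (c b q : ℝ) : Measure ℝ :=
  ENNReal.ofReal (1 - q) • Measure.dirac c + ENNReal.ofReal q • Measure.dirac b

/-! ### measurability -/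

theorem sortAsc_le_iff {k : ℕ} (v : Fin k → ℝ) (c : ℝ) (i : Fin k) :
    sortAsc v i ≤ c ↔ (i : ℕ) < (Finset.univ.filter (fun j => v j ≤ c)).card := by
  classical
  have h := Tuple.lt_card_le_iff_apply_le_of_monotone (j := i) (f := v ∘ Tuple.sort v) (a := c)
    (Tuple.monotone_sort v)
  unfold sortAsc
  rw [← h]
  have : (Finset.univ.filter (fun j => (v ∘ Tuple.sort v) j ≤ c)).card
      = (Finset.univ.filter (fun j => v j ≤ c)).card := by
    apply Finset.card_bij (fun j _ => Tuple.sort v j)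
    · intro a ha
      simpa using ha
    · intro a _ b _ hab
      exact (Tuple.sort v).injective hab
    · intro b hb
      refine ⟨(Tuple.sort v).symm b, ?_, ?_⟩
      · simpa using hb
      · simp
  rw [this]

theorem sortAsc_le_of_forall {k : ℕ} (v : Fin k → ℝ) (c : ℝ) (h : ∀ j, v j ≤ c) (i : Fin k) :
    sortAsc v i ≤ c := h _

theorem measurable_sortAsc {k : ℕ} : Measurable (sortAsc : (Fin k → ℝ) → (Fin k → ℝ)) := by
  classical
  rw [measurable_pi_iff]
  intro i
  apply measurable_of_Iic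
  intro c
  have : (fun v : Fin k → ℝ => sortAsc v i) ⁻¹' Set.Iic c
      = {v | (i : ℕ) < (Finset.univ.filter (fun j => v j ≤ c)).card} := by
    ext v
    simp only [Set.mem_preimage, Set.mem_Iic, Set.mem_ofPred_eq]
    exact sortAsc_le_iff v c i
  rw [this]
  have hm : Measurable (fun v : Fin k → ℝ => (Finset.univ.filter (fun j => v j ≤ c)).card) := by
    have e : (fun v : Fin k → ℝ => (Finset.univ.filter (fun j => v j ≤ c)).card)
      = fun v => ∑ j : Fin k, if v j ≤ c then 1 else 0 := by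
      funext v
      rw [Finset.card_filter]
    rw [e]
    apply Finset.measurable_sum
    intro j _
    apply Measurable.ite
    · exact measurableSet_le (measurable_pi_apply j) measurable_const
    · exact measurable_const
    · exact measurable_const
  exact measurableSet_lt measurable_const hm

theorem measurable_step {k : ℕ} :
    Measurable (fun x : (Fin k → ℝ) × (ℝ × ℝ) => step x.1 x.2.1 x.2.2) := by
  unfold step
  apply measurable_sortAsc.comp
  rw [measurable_pi_iff]
  intro i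
  apply Measurable.max _ measurable_const
  apply Measurable.sub _ (by fun_prop)
  apply Measurable.add (by fun_prop)
  by_cases h : (i : ℕ) = 0
  · simp only [h, if_true]; fun_prop
  · simp only [h, if_false]; fun_prop

theorem measurable_step_const {k : ℕ} (s t : ℝ) :
    Measurable (fun w : Fin k → ℝ => step w s t) :=
by
  unfold step
  apply measurable_sortAsc.comp
  rw [measurable_pi_iff]
  intro i
  apply Measurable.max _ measurable_const
  apply Measurable.sub _ measurable_const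
  apply Measurable.add (measurable_pi_apply i) measurable_const

/-! ### the two-point system -/

instance (c b q : ℝ) : IsFiniteMeasure (twoPoint c b q) := by
  constructor
  unfold twoPoint
  rw [Measure.add_apply, Measure.smul_apply, Measure.smul_apply, measure_univ, measure_univ]
  simp only [smul_eq_mul, mul_one]
  exact ENNReal.add_lt_top.mpr ⟨ENNReal.ofReal_lt_top, ENNReal.ofReal_lt_top⟩

theorem integrable_pt (f : ℝ → ℝ) (a x : ℝ) :
    Integrable f (ENNReal.ofReal a • Measure.dirac x) := by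
  apply Integrable.smul_measure _ ENNReal.ofReal_ne_top
  exact integrable_dirac (by simp)

theorem integral_twoPoint (f : ℝ → ℝ) (c b q : ℝ) (hq0 : 0 ≤ q) (hq1 : q ≤ 1) :
    ∫ x, f x ∂(twoPoint c b q) = (1 - q) * f c + q * f b := by
  have h1q : 0 ≤ 1 - q := by linarith
  unfold twoPoint
  rw [integral_add_measure (integrable_pt f _ _) (integrable_pt f _ _), integral_smul_measure,
    integral_smul_measure, integral_dirac, integral_dirac, ENNReal.toReal_ofReal h1q,
    ENNReal.toReal_ofReal hq0, smul_eq_mul, smul_eq_mul]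

theorem prob_twoPoint (c b q : ℝ) (hq0 : 0 ≤ q) (hq1 : q ≤ 1) :
    IsProbabilityMeasure (twoPoint c b q) := by
  have h1q : 0 ≤ 1 - q := by linarith
  constructor
  unfold twoPoint
  rw [Measure.add_apply, Measure.smul_apply, Measure.smul_apply, measure_univ, measure_univ]
  simp only [smul_eq_mul, mul_one]
  rw [← ENNReal.ofReal_add h1q hq0]
  simp

theorem nonneg_twoPoint (c b q : ℝ) (hc : 0 ≤ c) (hb : 0 ≤ b) :
    ∀ᵐ s ∂(twoPoint c b q), 0 ≤ s := by
  unfold twoPoint
  rw [ae_add_measure_iff]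
  constructor
  · apply Measure.ae_smul_measure
    rw [ae_dirac_eq]
    exact hc
  · apply Measure.ae_smul_measure
    rw [ae_dirac_eq]
    exact hb

theorem inQ2_twoPoint (k : ℕ) (c q : ℝ) (hc : 0 ≤ c) (hq0 : 0 ≤ q) (hq1 : q ≤ 1) :
    InQ2 1 ((1 - q) * c + q * k) 1 ((1 - q) * c ^ 2 + q * k ^ 2)
      (Measure.dirac 1) (twoPoint c k q) where
  probT := inferInstance
  probS := prob_twoPoint c k q hq0 hq1
  nonnegT := by
    rw [ae_dirac_eq]
    exact (zero_le_one : (0 : ℝ) ≤ 1)
  nonnegS := nonneg_twoPoint c k q hc (Nat.cast_nonneg k)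
  sqT := integrable_dirac (by simp)
  sqS := by
    unfold twoPoint
    exact (integrable_pt _ _ _).add_measure (integrable_pt _ _ _)
  meanT := by rw [integral_dirac]
  meanS := integral_twoPoint (fun x => x) c k q hq0 hq1
  secondT := by rw [integral_dirac]; norm_num
  secondS := integral_twoPoint (fun x => x ^ 2) c k q hq0 hq1

/-- the invariance equation for the two-point system, on measurable sets -/
theorem invariance_iff {k : ℕ} (c q : ℝ) (π : Measure (Fin k → ℝ)) [SFinite π]
    (B : Set (Fin k → ℝ)) (hB : MeasurableSet B) :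
    Measure.map (fun x : (Fin k → ℝ) × (ℝ × ℝ) => step x.1 x.2.1 x.2.2)
      (π.prod ((twoPoint c k q).prod (Measure.dirac 1))) B
    = ENNReal.ofReal (1 - q) * π ((fun w => step w c 1) ⁻¹' B) +
      ENNReal.ofReal q * π ((fun w => step w k 1) ⁻¹' B) := by
  have e1 : (twoPoint c k q).prod (Measure.dirac (1 : ℝ))
      = ENNReal.ofReal (1 - q) • Measure.dirac (c, (1 : ℝ)) +
        ENNReal.ofReal q • Measure.dirac ((k : ℝ), (1 : ℝ)) := by
    rw [Measure.prod_dirac]
    unfold twoPoint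
    rw [Measure.map_add _ _ (by fun_prop), Measure.map_smul, Measure.map_smul,
      Measure.map_dirac' (by fun_prop), Measure.map_dirac' (by fun_prop)]
  rw [e1, Measure.prod_add, Measure.map_add _ _ measurable_step, Measure.add_apply,
    Measure.prod_smul_right, Measure.prod_smul_right, Measure.map_smul, Measure.map_smul,
    Measure.prod_dirac, Measure.prod_dirac,
    Measure.map_map measurable_step (by fun_prop), Measure.map_map measurable_step (by fun_prop),
    Measure.smul_apply, Measure.smul_apply,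
    Measure.map_apply (measurable_step.comp (by fun_prop)) hB,
    Measure.map_apply (measurable_step.comp (by fun_prop)) hB]
  rfl


/-! ### the cyclic region -/

/-- workload vectors for which the arriving customer never waits in the future -/
def A (k : ℕ) : Set (Fin k → ℝ) := {w | ∀ i, w i ≤ ((i : ℕ) : ℝ)}

theorem measurableSet_A (k : ℕ) : MeasurableSet (A k) := by
  have : A k = ⋂ i : Fin k, {w | w i ≤ ((i : ℕ) : ℝ)} := by
    ext w; simp [A]
  rw [this]
  exact MeasurableSet.iInter (fun i => measurableSet_le (measurable_pi_apply i) measurable_const)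

theorem step_mem_A {k : ℕ} (w : Fin k → ℝ) (hw : w ∈ A k) (s : ℝ) (hs : s ≤ k) :
    step w s 1 ∈ A k := by
  intro i
  unfold step
  rw [sortAsc_le_iff]
  have hk : 1 ≤ k := by have := i.2; omega
  have hkr : (1 : ℝ) ≤ k := by exact_mod_cast hk
  have hv : ∀ j : Fin k, (j : ℕ) ≠ 0 →
      max (w j + (if (j : ℕ) = 0 then s else 0) - 1) 0 ≤ ((j : ℕ) : ℝ) - 1 := by
    intro j hj
    have h1 := hw j
    have h2 : (1 : ℝ) ≤ ((j : ℕ) : ℝ) := by exact_mod_cast Nat.one_le_iff_ne_zero.mpr hj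
    simp only [hj, if_false]
    apply max_le <;> linarith
  have hv0 : ∀ j : Fin k, (j : ℕ) = 0 →
      max (w j + (if (j : ℕ) = 0 then s else 0) - 1) 0 ≤ (k : ℝ) - 1 := by
    intro j hj
    have h1 := hw j
    rw [hj] at h1
    simp only [Nat.cast_zero] at h1
    simp only [hj, if_true]
    apply max_le <;> linarith
  rcases Nat.lt_or_ge ((i : ℕ) + 1) k with hi | hi
  · have : (Finset.univ : Finset (Fin ((i : ℕ) + 1))).card ≤
        (Finset.univ.filter (fun j : Fin k =>
          max (w j + (if (j : ℕ) = 0 then s else 0) - 1) 0 ≤ ((i : ℕ) : ℝ))).card := by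
      apply Finset.card_le_card_of_injOn (fun j : Fin ((i : ℕ) + 1) =>
        (⟨(j : ℕ) + 1, by have := j.2; omega⟩ : Fin k))
      · intro j _
        simp only [Finset.coe_filter, Finset.mem_univ, true_and, Set.mem_ofPred_eq]
        refine (hv _ (Nat.succ_ne_zero _)).trans ?_
        have : (j : ℕ) ≤ i := by have := j.2; omega
        have h3 : ((j : ℕ) : ℝ) ≤ ((i : ℕ) : ℝ) := by exact_mod_cast this
        push_cast
        linarith
      · intro a _ b _ hab
        simp only [Fin.mk.injEq, Nat.add_right_cancel_iff] at hab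
        exact Fin.ext hab
    rw [Finset.card_univ, Fintype.card_fin] at this
    omega
  · have hik : (i : ℕ) = k - 1 := by have := i.2; omega
    have : Finset.univ.filter (fun j : Fin k =>
          max (w j + (if (j : ℕ) = 0 then s else 0) - 1) 0 ≤ ((i : ℕ) : ℝ)) = Finset.univ := by
      apply Finset.filter_true_of_mem
      intro j _
      rw [hik, Nat.cast_sub hk, Nat.cast_one]
      by_cases hj : (j : ℕ) = 0
      · exact hv0 j hj
      · refine (hv j hj).trans ?_
        have : ((j : ℕ) : ℝ) ≤ k := by exact_mod_cast j.2.le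
        linarith
    rw [this, Finset.card_univ, Fintype.card_fin]
    exact i.2

theorem drain {k : ℕ} (c : ℝ) (hc0 : 0 ≤ c) (hc1 : c < 1) :
    ∀ (j : ℕ) (w : Fin k → ℝ), (∀ i, w i ≤ j * (1 - c)) →
      (fun w : Fin k → ℝ => step w c 1)^[j] w ∈ A k := by
  intro j
  induction j with
  | zero =>
    intro w hw i
    have := hw i
    simp only [Nat.cast_zero, zero_mul] at this
    exact this.trans (Nat.cast_nonneg _)
  | succ j ih =>
    intro w hw
    rw [Function.iterate_succ_apply]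
    apply ih
    intro i
    have hj : (0 : ℝ) ≤ j * (1 - c) := mul_nonneg (Nat.cast_nonneg j) (by linarith)
    unfold step
    apply sortAsc_le_of_forall
    intro m
    have := hw m
    push_cast at this
    refine max_le ?_ hj
    split_ifs <;> nlinarith

theorem real_invariance {k : ℕ} (c q : ℝ) (hq0 : 0 ≤ q) (hq1 : q ≤ 1) (π : Measure (Fin k → ℝ))
    (h : IsStationary k (Measure.dirac 1) (twoPoint c k q) π)
    (B : Set (Fin k → ℝ)) (hB : MeasurableSet B) :
    (π B).toReal = (1 - q) * (π ((fun w => step w c 1) ⁻¹' B)).toReal +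
      q * (π ((fun w => step w k 1) ⁻¹' B)).toReal := by
  have := h.prob
  have e := invariance_iff c q π B hB
  rw [h.invariant] at e
  rw [e, ENNReal.toReal_add, ENNReal.toReal_mul, ENNReal.toReal_mul,
    ENNReal.toReal_ofReal (by linarith), ENNReal.toReal_ofReal hq0]
  · exact ENNReal.mul_ne_top ENNReal.ofReal_ne_top (measure_ne_top _ _)
  · exact ENNReal.mul_ne_top ENNReal.ofReal_ne_top (measure_ne_top _ _)

theorem ae_mem_A {k : ℕ} (c q : ℝ) (hc0 : 0 ≤ c) (hc1 : c < 1) (hq0 : 0 ≤ q) (hq1 : q < 1)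
    (hck : c ≤ k) (π : Measure (Fin k → ℝ))
    (h : IsStationary k (Measure.dirac 1) (twoPoint c k q) π) :
    ∀ᵐ w ∂π, w ∈ A k := by
  have := h.prob
  let f : (Fin k → ℝ) → (Fin k → ℝ) := fun w => step w c 1
  have hf : Measurable f := measurable_step_const c 1
  have hfA : A k ⊆ f ⁻¹' A k := fun w hw => step_mem_A w hw c hck
  have hgA : A k ⊆ (fun w : Fin k → ℝ => step w k 1) ⁻¹' A k := fun w hw => step_mem_A w hw k le_rfl
  have hAj : ∀ j : ℕ, A k ⊆ f^[j] ⁻¹' A k := by
    intro j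
    induction j with
    | zero => exact subset_rfl
    | succ j ih =>
      intro w hw
      change f^[j+1] w ∈ A k
      rw [Function.iterate_succ_apply]
      exact ih (hfA hw)
  have hmeas : ∀ j : ℕ, MeasurableSet (f^[j] ⁻¹' A k) := fun j =>
    (hf.iterate j) (measurableSet_A k)
  have hle : ∀ j : ℕ, (π (f^[j] ⁻¹' A k)).toReal ≤ (π (A k)).toReal := by
    intro j
    induction j with
    | zero => exact le_rfl
    | succ j ih =>
      have e := real_invariance c q hq0 hq1.le π h (f^[j] ⁻¹' A k) (hmeas j)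
      have e2 : (fun w => step w c 1) ⁻¹' (f^[j] ⁻¹' A k) = f^[j+1] ⁻¹' A k := by
        ext w
        simp only [Set.mem_preimage, Function.iterate_succ_apply]
        rfl
      rw [e2] at e
      have h1 : (π (A k)).toReal ≤ (π ((fun w => step w k 1) ⁻¹' (f^[j] ⁻¹' A k))).toReal := by
        apply ENNReal.toReal_mono (measure_ne_top _ _)
        apply measure_mono
        intro w hw
        exact hAj j (hgA hw)
      have h2 : (1 - q) * (π (f^[j+1] ⁻¹' A k)).toReal ≤ (1 - q) * (π (A k)).toReal := by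
        nlinarith
      exact le_of_mul_le_mul_left h2 (by linarith)
  have hcover : (⋃ j : ℕ, f^[j] ⁻¹' A k) = Set.univ := by
    rw [Set.eq_univ_iff_forall]
    intro w
    obtain ⟨M, hM⟩ : ∃ M : ℝ, ∀ i, w i ≤ M := by
      refine ⟨∑ i, |w i|, fun i => ?_⟩
      exact (le_abs_self _).trans (Finset.single_le_sum (f := fun i => |w i|)
        (fun i _ => abs_nonneg _) (Finset.mem_univ i))
    obtain ⟨j, hj⟩ := exists_nat_ge (M / (1 - c))
    rw [Set.mem_iUnion]
    refine ⟨j, drain c hc0 hc1 j w (fun i => (hM i).trans ?_)⟩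
    rwa [div_le_iff₀ (by linarith)] at hj
  have hdiff : ∀ j : ℕ, π (f^[j] ⁻¹' A k \ A k) = 0 := by
    intro j
    rw [measure_sdiff (hAj j) (measurableSet_A k).nullMeasurableSet (measure_ne_top _ _)]
    rw [tsub_eq_zero_iff_le]
    rw [← ENNReal.toReal_le_toReal (measure_ne_top _ _) (measure_ne_top _ _)]
    exact hle j
  rw [ae_iff]
  have hsub : {w | ¬ w ∈ A k} ⊆ ⋃ j : ℕ, (f^[j] ⁻¹' A k \ A k) := by
    intro w hw
    have : w ∈ ⋃ j : ℕ, f^[j] ⁻¹' A k := by rw [hcover]; trivial
    rw [Set.mem_iUnion] at this ⊢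
    obtain ⟨j, hj⟩ := this
    exact ⟨j, hj, hw⟩
  exact measure_mono_null hsub (measure_iUnion_null hdiff)

theorem meanWait_zero {k : ℕ} (hk : 2 ≤ k) (c q : ℝ) (hc0 : 0 ≤ c) (hc1 : c < 1) (hq0 : 0 ≤ q)
    (hq1 : q < 1) (π : Measure (Fin k → ℝ))
    (h : IsStationary k (Measure.dirac 1) (twoPoint c k q) π) : meanWait hk π = 0 := by
  have hk2 : (2 : ℝ) ≤ k := by exact_mod_cast hk
  have hA := ae_mem_A c q hc0 hc1 hq0 hq1 (by linarith) π h
  unfold meanWait
  rw [lintegral_congr_ae (g := fun _ => 0) ?_, lintegral_zero]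
  filter_upwards [hA] with w hw
  have := hw ⟨0, by omega⟩
  simp only [Nat.cast_zero] at this
  simpa using this

theorem rhs_pos {k : ℕ} (hk : 2 ≤ k) (c q : ℝ) (hc1 : c < 1) (hq1 : q < 1)
    (hload : 1 - 1 / (k : ℝ) < load k 1 ((1 - q) * c + q * k)) :
    0 < rhs k 1 ((1 - q) * c + q * k) ((1 - q) * c ^ 2 + q * k ^ 2) := by
  have hk2 : (2 : ℝ) ≤ k := by exact_mod_cast hk
  have hk0 : (0 : ℝ) < k := by linarith
  unfold rhs
  apply mul_pos
  · have : (k : ℝ) * (1 - 1 / k) < k * load k 1 ((1 - q) * c + q * k) :=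
      mul_lt_mul_of_pos_left hload hk0
    rw [mul_sub, mul_one, mul_one_div, div_self hk0.ne'] at this
    linarith
  · apply lt_max_of_lt_left
    have e : (1 - q) * c ^ 2 + q * (k : ℝ) ^ 2 - (2 * k - 1) * ((1 - q) * c + q * k) * 1
        + k * (k - 1) * 1 ^ 2 = (1 - q) * ((k - 1 - c) * (k - c)) := by ring
    rw [e]
    apply mul_pos (by linarith)
    apply mul_pos <;> linarith


/-! ### two servers: the stationary distribution -/

/-- the stationary distribution for two servers -/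
noncomputable def pi2 (q : ℝ) : Measure (Fin 2 → ℝ) :=
  ENNReal.ofReal (1 - q) • Measure.dirac ![0, 0] + ENNReal.ofReal q • Measure.dirac ![0, 1]

theorem step_low (c : ℝ) (hc1 : c < 1) (w : Fin 2 → ℝ) (h0 : w 0 = 0) (h1 : w 1 ≤ 1) :
    step w c 1 = ![0, 0] := by
  have hv : (fun i : Fin 2 => max (w i + (if (i : ℕ) = 0 then c else 0) - 1) 0) = ![0, 0] := by
    funext i
    fin_cases i
    · simp [h0]; linarith
    · simp; linarith
  unfold step
  rw [hv]
  have hc : ∀ m : Fin 2, (![0, 0] : Fin 2 → ℝ) m = 0 := by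
    intro m; fin_cases m <;> rfl
  funext i
  rw [hc i]
  exact hc _

theorem step_high (w : Fin 2 → ℝ) (h0 : w 0 = 0) (h1 : w 1 ≤ 1) :
    step w ((2 : ℕ) : ℝ) 1 = ![0, 1] := by
  have hv : (fun i : Fin 2 => max (w i + (if (i : ℕ) = 0 then (((2 : ℕ) : ℝ)) else 0) - 1) 0) = ![1, 0] := by
    funext i
    fin_cases i
    · simp [h0]; norm_num
    · simp; linarith
  unfold step
  rw [hv]
  unfold sortAsc
  have hmono : Monotone ((![1, 0] : Fin 2 → ℝ) ∘ (Equiv.swap (0 : Fin 2) 1)) := by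
    intro a b hab
    fin_cases a <;> fin_cases b <;> simp_all
  rw [← Tuple.comp_sort_eq_comp_iff_monotone] at hmono
  rw [← hmono]
  funext i
  fin_cases i <;> simp

theorem map_eq_pi2 (c q : ℝ) (hc1 : c < 1) (π : Measure (Fin 2 → ℝ)) [IsProbabilityMeasure π]
    (h : ∀ᵐ w ∂π, w 0 = 0 ∧ w 1 ≤ 1) :
    Measure.map (fun x : (Fin 2 → ℝ) × (ℝ × ℝ) => step x.1 x.2.1 x.2.2)
      (π.prod ((twoPoint c ((2 : ℕ) : ℝ) q).prod (Measure.dirac 1))) = pi2 q := by
  classical
  ext B hB
  rw [invariance_iff c q π B hB]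
  have e1 : π ((fun w => step w c 1) ⁻¹' B) = Measure.dirac (![0, 0] : Fin 2 → ℝ) B := by
    rw [Measure.dirac_apply' _ hB]
    by_cases hm : (![0, 0] : Fin 2 → ℝ) ∈ B
    · rw [Set.indicator_of_mem hm, Pi.one_apply]
      rw [prob_compl_eq_zero_iff (measurable_step_const c 1 hB) |>.symm]
      rw [← mem_ae_iff]
      filter_upwards [h] with w hw
      rw [Set.mem_preimage, step_low c hc1 w hw.1 hw.2]
      exact hm
    · rw [Set.indicator_of_notMem hm]
      rw [measure_eq_zero_iff_ae_notMem]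
      filter_upwards [h] with w hw
      rw [Set.mem_preimage, step_low c hc1 w hw.1 hw.2]
      exact hm
  have e2 : π ((fun w => step w ((2 : ℕ) : ℝ) 1) ⁻¹' B) = Measure.dirac (![0, 1] : Fin 2 → ℝ) B := by
    rw [Measure.dirac_apply' _ hB]
    by_cases hm : (![0, 1] : Fin 2 → ℝ) ∈ B
    · rw [Set.indicator_of_mem hm, Pi.one_apply]
      rw [prob_compl_eq_zero_iff (measurable_step_const _ 1 hB) |>.symm]
      rw [← mem_ae_iff]
      filter_upwards [h] with w hw
      rw [Set.mem_preimage, step_high w hw.1 hw.2]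
      exact hm
    · rw [Set.indicator_of_notMem hm]
      rw [measure_eq_zero_iff_ae_notMem]
      filter_upwards [h] with w hw
      rw [Set.mem_preimage, step_high w hw.1 hw.2]
      exact hm
  rw [e1, e2]
  rfl

theorem ae_pi2 (q : ℝ) (P : (Fin 2 → ℝ) → Prop) (h0 : P ![0, 0]) (h1 : P ![0, 1]) :
    ∀ᵐ w ∂(pi2 q), P w := by
  unfold pi2
  rw [ae_add_measure_iff]
  constructor
  · apply Measure.ae_smul_measure
    rw [ae_dirac_eq]
    exact h0
  · apply Measure.ae_smul_measure
    rw [ae_dirac_eq]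
    exact h1

theorem stationary_pi2 (c q : ℝ) (hc1 : c < 1) (hq0 : 0 ≤ q) (hq1 : q < 1) :
    IsStationary 2 (Measure.dirac 1) (twoPoint c ((2 : ℕ) : ℝ) q) (pi2 q) := by
  have hp : IsProbabilityMeasure (pi2 q) := by
    constructor
    unfold pi2
    rw [Measure.add_apply, Measure.smul_apply, Measure.smul_apply, measure_univ, measure_univ]
    simp only [smul_eq_mul, mul_one]
    rw [← ENNReal.ofReal_add (by linarith) hq0]
    simp
  refine ⟨hp, ?_, ?_, ?_⟩
  · apply ae_pi2
    · intro a b _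
      fin_cases a <;> fin_cases b <;> simp
    · intro a b hab
      fin_cases a <;> fin_cases b <;> simp_all
  · apply ae_pi2
    · intro i; fin_cases i <;> simp
    · intro i; fin_cases i <;> simp
  · apply map_eq_pi2 c q hc1
    apply ae_pi2 <;> simp

theorem unique_pi2 (c q : ℝ) (hc0 : 0 ≤ c) (hc1 : c < 1) (hq0 : 0 ≤ q) (hq1 : q < 1)
    (π : Measure (Fin 2 → ℝ))
    (h : IsStationary 2 (Measure.dirac 1) (twoPoint c ((2 : ℕ) : ℝ) q) π) : π = pi2 q := by
  have := h.prob
  rw [← h.invariant]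
  apply map_eq_pi2 c q hc1
  filter_upwards [ae_mem_A c q hc0 hc1 hq0 hq1 (by push_cast; linarith) π h, h.nonneg] with w hw hw'
  constructor
  · have h1 := hw 0
    simp only [Fin.val_zero, Nat.cast_zero] at h1
    exact le_antisymm h1 (hw' 0)
  · have h1 := hw 1
    simpa using h1

/-- **Disproof of Q1.** -/
theorem result :
    (∀ (k : ℕ) (hk : 2 ≤ k) (c q : ℝ), 0 ≤ c → c < 1 → q < 1 →
      1 - 1 / (k : ℝ) < load k 1 ((1 - q) * c + q * k) →
      load k 1 ((1 - q) * c + q * k) < 1 ∧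
      InQ2 1 ((1 - q) * c + q * k) 1 ((1 - q) * c ^ 2 + q * k ^ 2)
        (Measure.dirac 1) (twoPoint c k q) ∧
      0 < rhs k 1 ((1 - q) * c + q * k) ((1 - q) * c ^ 2 + q * k ^ 2) ∧
      ∀ π, IsStationary k (Measure.dirac 1) (twoPoint c k q) π → meanWait hk π = 0) ∧
    (∀ (c q : ℝ), 0 ≤ c → c < 1 → q < 1 →
      1 - 1 / ((2 : ℕ) : ℝ) < load 2 1 ((1 - q) * c + q * (2 : ℕ)) →
      (∃! π, IsStationary 2 (Measure.dirac 1) (twoPoint c ((2 : ℕ) : ℝ) q) π) ∧
      ¬ PartA 2 le_rfl 1 ((1 - q) * c + q * (2 : ℕ)) 1 ((1 - q) * c ^ 2 + q * (2 : ℕ) ^ 2) ∧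
      ¬ PartB 2 le_rfl 1 ((1 - q) * c + q * (2 : ℕ)) 1 ((1 - q) * c ^ 2 + q * (2 : ℕ) ^ 2)) ∧
    ¬ Q1 := by
  have hqpos : ∀ (k : ℕ) (hk : 2 ≤ k) (c q : ℝ), 0 ≤ c → c < 1 → q < 1 →
      1 - 1 / (k : ℝ) < load k 1 ((1 - q) * c + q * k) → 0 ≤ q := by
    intro k hk c q hc0 hc1 hq1 hl
    have hk2 : (2 : ℝ) ≤ k := by exact_mod_cast hk
    have hk0 : (0 : ℝ) < k := by linarith
    unfold load at hl
    rw [mul_one, lt_div_iff₀ hk0, sub_mul, one_mul, one_div, inv_mul_cancel₀ hk0.ne'] at hl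
    by_contra hq
    push Not at hq
    nlinarith
  have hB : ∀ (c q : ℝ), 0 ≤ c → c < 1 → q < 1 →
      1 - 1 / ((2 : ℕ) : ℝ) < load 2 1 ((1 - q) * c + q * (2 : ℕ)) →
      (∃! π, IsStationary 2 (Measure.dirac 1) (twoPoint c ((2 : ℕ) : ℝ) q) π) ∧
      ¬ PartA 2 le_rfl 1 ((1 - q) * c + q * (2 : ℕ)) 1 ((1 - q) * c ^ 2 + q * (2 : ℕ) ^ 2) ∧
      ¬ PartB 2 le_rfl 1 ((1 - q) * c + q * (2 : ℕ)) 1 ((1 - q) * c ^ 2 + q * (2 : ℕ) ^ 2) := by
    intro c q hc0 hc1 hq1 hl
    have hq0 := hqpos 2 le_rfl c q hc0 hc1 hq1 hl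
    have hst := stationary_pi2 c q hc1 hq0 hq1
    have hm := meanWait_zero le_rfl c q hc0 hc1 hq0 hq1 _ hst
    have hr := rhs_pos le_rfl c q hc1 hq1 hl
    have hin := inQ2_twoPoint 2 c q hc0 hq0 hq1.le
    refine ⟨⟨pi2 q, hst, fun π h => unique_pi2 c q hc0 hc1 hq0 hq1 π h⟩, ?_, ?_⟩
    · intro hA
      have := hA _ _ hin _ hst
      rw [hm, mul_zero] at this
      have h2 := ENNReal.ofReal_pos.mpr hr
      exact absurd this (not_le.mpr h2)
    · intro hB
      have hle : (⨅ (μT : Measure ℝ) (μS : Measure ℝ)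
          (_ : InQ2 1 ((1 - q) * c + q * (2 : ℕ)) 1 ((1 - q) * c ^ 2 + q * (2 : ℕ) ^ 2) μT μS)
          (π : Measure (Fin 2 → ℝ)) (_ : IsStationary 2 μT μS π),
          ENNReal.ofReal (coeff 2 1 ((1 - q) * c + q * (2 : ℕ))) * meanWait le_rfl π) ≤ 0 := by
        refine (iInf_le _ (Measure.dirac 1)).trans ?_
        refine (iInf_le _ (twoPoint c ((2 : ℕ) : ℝ) q)).trans ?_
        refine (iInf_le _ hin).trans ?_
        refine (iInf_le _ (pi2 q)).trans ?_
        refine (iInf_le _ hst).trans ?_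
        rw [hm, mul_zero]
      unfold PartB at hB
      rw [hB] at hle
      have h2 := ENNReal.ofReal_pos.mpr hr
      exact absurd hle (not_le.mpr h2)
  refine ⟨?_, hB, ?_⟩
  · intro k hk c q hc0 hc1 hq1 hl
    have hq0 := hqpos k hk c q hc0 hc1 hq1 hl
    have hk2 : (2 : ℝ) ≤ k := by exact_mod_cast hk
    refine ⟨?_, inQ2_twoPoint k c q hc0 hq0 hq1.le, rhs_pos hk c q hc1 hq1 hl,
      fun π h => meanWait_zero hk c q hc0 hc1 hq0 hq1 π h⟩
    unfold load
    rw [mul_one, div_lt_one (by linarith)]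
    nlinarith
  · intro hQ
    have h1 := hB 0 (3/4) le_rfl one_pos (by norm_num) (by unfold load; norm_num)
    have h2 := hQ 2 le_rfl 1 ((1 - 3/4) * 0 + 3/4 * (2 : ℕ)) 1 ((1 - 3/4) * 0 ^ 2 + 3/4 * (2 : ℕ) ^ 2)
      one_pos ⟨_, _, inQ2_twoPoint 2 0 (3/4) le_rfl (by norm_num) (by norm_num)⟩
      (by unfold load; norm_num) (by unfold load; norm_num)
    exact h1.2.1 h2.1

end Pool.Agent.Results.MP_97409a_pr.ZeroWait
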